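import Pool.Agent.W407.IA.Fox

/-!
# Three automorphisms of the free group of rank three
-/

namespace Pool.Agent.W407.IA

open PowerSeries
open scoped commutatorElement

/-- the generators -/
abbrev x (i : Fin 3) : F := FreeGroup.of i

/-- `x₁ ↦ x₀ x₁ x₀⁻¹`, the other generators fixed -/
def autK : MulAut F :=
  MonoidHom.toMulEquiv
    (FreeGroup.lift ![x 0, x 0 * x 1 * (x 0)⁻¹, x 2])
    (FreeGroup.lift ![x 0, (x 0)⁻¹ * x 1 * x 0, x 2])
    (by ext i; fin_cases i <;> simp [mul_assoc])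
    (by ext i; fin_cases i <;> simp [mul_assoc])

/-- the commutator `x₀ x₁ x₀⁻¹ x₁⁻¹` -/
def c01 : F := x 0 * x 1 * (x 0)⁻¹ * (x 1)⁻¹

/-- `x₂ ↦ [x₀, x₁] x₂`, the other generators fixed -/
def autM : MulAut F :=
  MonoidHom.toMulEquiv
    (FreeGroup.lift ![x 0, x 1, c01 * x 2])
    (FreeGroup.lift ![x 0, x 1, c01⁻¹ * x 2])
    (by ext i; fin_cases i <;> simp [mul_assoc, c01])
    (by ext i; fin_cases i <;> simp [mul_assoc, c01])

/-- `x₂ ↦ x₂ [x₀, x₁]`, the other generators fixed -/
def autM' : MulAut F :=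
  MonoidHom.toMulEquiv
    (FreeGroup.lift ![x 0, x 1, x 2 * c01])
    (FreeGroup.lift ![x 0, x 1, x 2 * c01⁻¹])
    (by ext i; fin_cases i <;> simp [mul_assoc, c01])
    (by ext i; fin_cases i <;> simp [mul_assoc, c01])

theorem autK_0 : autK (x 0) = x 0 := by simp [autK]
theorem autK_1 : autK (x 1) = x 0 * x 1 * (x 0)⁻¹ := by simp [autK]
theorem autK_2 : autK (x 2) = x 2 := by simp [autK]
theorem autM_0 : autM (x 0) = x 0 := by simp [autM]
theorem autM_1 : autM (x 1) = x 1 := by simp [autM]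
theorem autM_2 : autM (x 2) = c01 * x 2 := by simp [autM]
theorem autM'_0 : autM' (x 0) = x 0 := by simp [autM']
theorem autM'_1 : autM' (x 1) = x 1 := by simp [autM']
theorem autM'_2 : autM' (x 2) = x 2 * c01 := by simp [autM']

theorem aut_ext {φ ψ : MulAut F} (h0 : φ (x 0) = ψ (x 0)) (h1 : φ (x 1) = ψ (x 1))
    (h2 : φ (x 2) = ψ (x 2)) : φ = ψ := by
  apply MulEquiv.toMonoidHom_injective
  ext i
  fin_cases i
  · exact h0
  · exact h1
  · exact h2

theorem isIA_of {φ : MulAut F}
    (h : ∀ i, Abelianization.of (φ (x i)) = Abelianization.of (x i)) : IsIA φ := by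
  have h1 : (Abelianization.of.comp (φ : F ≃* F).toMonoidHom : F →* Abelianization F) =
      Abelianization.of := by
    ext i
    exact h i
  intro w
  exact DFunLike.congr_fun h1 w

theorem ab_c01 : Abelianization.of c01 = (1 : Abelianization F) := by
  unfold c01
  rw [map_mul, map_mul, map_mul, map_inv, map_inv, mul_comm (Abelianization.of (x 0))]
  simp

theorem isIA_K : IsIA autK := by
  apply isIA_of
  intro i
  fin_cases i
  · exact congrArg _ autK_0
  · change Abelianization.of (autK (x 1)) = _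
    rw [autK_1, map_mul, map_mul, map_inv, mul_comm (Abelianization.of (x 0)),
      mul_inv_cancel_right]
    rfl
  · exact congrArg _ autK_2

theorem isIA_M : IsIA autM := by
  apply isIA_of
  intro i
  fin_cases i
  · exact congrArg _ autM_0
  · exact congrArg _ autM_1
  · change Abelianization.of (autM (x 2)) = _
    rw [autM_2, map_mul, ab_c01, one_mul]
    rfl

theorem isIA_M' : IsIA autM' := by
  apply isIA_of
  intro i
  fin_cases i
  · exact congrArg _ autM'_0
  · exact congrArg _ autM'_1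
  · change Abelianization.of (autM' (x 2)) = _
    rw [autM'_2, map_mul, ab_c01, mul_one]
    rfl

theorem autM_c01 : autM c01 = c01 := by
  unfold c01; simp only [map_mul, map_inv, autM_0, autM_1]

theorem autM'_c01 : autM' c01 = c01 := by
  unfold c01; simp only [map_mul, map_inv, autM'_0, autM'_1]

theorem autM'_Kc01 : autM' (autK c01) = autK c01 := by
  unfold c01; simp only [map_mul, map_inv, autK_0, autK_1, autM'_0, autM'_1]

theorem comm_M_M' : autM * autM' = autM' * autM := by
  apply aut_ext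
  · change autM (autM' (x 0)) = autM' (autM (x 0))
    rw [autM'_0, autM_0, autM'_0]
  · change autM (autM' (x 1)) = autM' (autM (x 1))
    rw [autM'_1, autM_1, autM'_1]
  · change autM (autM' (x 2)) = autM' (autM (x 2))
    rw [autM'_2, autM_2, map_mul, map_mul, autM_2, autM'_2, autM_c01, autM'_c01, mul_assoc]

/-- `K M = L_{K(c)} K`: the conjugate of `M` by `K` is left multiplication of `x₂` by `K(c)`. -/
theorem conj_eval (i : Fin 3) : (autK * autM * autK⁻¹) (x i) =
    if i = 2 then autK c01 * x 2 else x i := by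
  have e0 : autK⁻¹ (x 0) = x 0 := by
    rw [MulAut.inv_apply, MulEquiv.symm_apply_eq, autK_0]
  have e2 : autK⁻¹ (x 2) = x 2 := by
    rw [MulAut.inv_apply, MulEquiv.symm_apply_eq, autK_2]
  have e1 : autK⁻¹ (x 1) = (x 0)⁻¹ * x 1 * x 0 := by
    rw [MulAut.inv_apply, MulEquiv.symm_apply_eq, map_mul, map_mul, map_inv, autK_0, autK_1]
    group
  change autK (autM (autK⁻¹ (x i))) = _
  fin_cases i
  · change autK (autM (autK⁻¹ (x 0))) = x 0
    rw [e0, autM_0, autK_0]
  · change autK (autM (autK⁻¹ (x 1))) = x 1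
    rw [e1]
    simp only [map_mul, map_inv, autM_0, autM_1, autK_0, autK_1]
    group
  · change autK (autM (autK⁻¹ (x 2))) = autK c01 * x 2
    rw [e2, autM_2, map_mul, autK_2]

theorem comm_conj : (autK * autM * autK⁻¹) * autM' = autM' * (autK * autM * autK⁻¹) := by
  have k0 := conj_eval 0
  have k1 := conj_eval 1
  have k2 := conj_eval 2
  rw [if_neg (by decide)] at k0 k1
  rw [if_pos rfl] at k2
  generalize autK * autM * autK⁻¹ = P at k0 k1 k2 ⊢
  have kc : P c01 = c01 := by
    unfold c01; simp only [map_mul, map_inv, k0, k1]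
  apply aut_ext
  · change P (autM' (x 0)) = autM' (P (x 0))
    rw [autM'_0, k0, autM'_0]
  · change P (autM' (x 1)) = autM' (P (x 1))
    rw [autM'_1, k1, autM'_1]
  · change P (autM' (x 2)) = autM' (P (x 2))
    rw [autM'_2, map_mul, k2, kc, map_mul, autM'_2, autM'_Kc01, mul_assoc]

/-- The relation `[[K, M], M'] = 1`. -/
theorem relation : ⁅⁅autK, autM⁆, autM'⁆ = 1 := by
  rw [commutatorElement_eq_one_iff_mul_comm, commutatorElement_def]
  have h1 : Commute (autK * autM * autK⁻¹) autM' := comm_conj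
  have h2 : Commute autM autM' := comm_M_M'
  exact (h1.mul_left h2.inv_left)

/-! ### values of the invariants -/

theorem D_x0 : D (x 0) = ⟨t, Pi.single 0 1⟩ := by rw [D_of]; rfl
theorem D_x1 : D (x 1) = ⟨1, Pi.single 1 1⟩ := by rw [D_of]; rfl
theorem D_x2 : D (x 2) = ⟨1, Pi.single 2 1⟩ := by rw [D_of]; rfl

theorem u_x0 : (D (x 0)).u = t := by rw [D_x0]
theorem u_x1 : (D (x 1)).u = 1 := by rw [D_x1]
theorem u_x2 : (D (x 2)).u = 1 := by rw [D_x2]

theorem coeff_one_t : coeff 1 (t : R) = 1 := by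
  rw [t_val, map_add, coeff_one_X]
  simp [coeff_one]

theorem v_conj (j : Fin 3) : (D (x 0 * x 1 * (x 0)⁻¹)).v j =
    (D (x 0)).v j + t * (D (x 1)).v j - (D (x 0)).v j := by
  rw [vD_mul, vD_mul, vD_inv, uD_mul, u_x0, u_x1]
  simp only [mul_one, mul_neg, ← sub_eq_add_neg]
  rw [← mul_assoc, Units.mul_inv, one_mul]

theorem u_conj : (D (x 0 * x 1 * (x 0)⁻¹)).u = 1 := by
  rw [uD_mul, uD_mul, uD_inv, u_x0, u_x1, mul_one, mul_inv_cancel]

theorem v_c01 (j : Fin 3) : (D c01).v j =
    (D (x 0)).v j + t * (D (x 1)).v j - (D (x 0)).v j - (D (x 1)).v j := by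
  unfold c01
  rw [vD_mul, v_conj, vD_inv, u_conj, u_x1]
  simp
  ring

theorem u_c01 : (D c01).u = 1 := by
  unfold c01
  rw [uD_mul, u_conj, uD_inv, u_x1]
  simp

theorem fa_K : fa autK = 1 := by
  unfold fa B
  change coeff 1 ((D (autK (x 1))).v 1) = 1
  rw [autK_1, v_conj, D_x0, D_x1]
  simp [coeff_one_t]

theorem fd_K : fd autK = 0 := by
  unfold fd B
  change coeff 1 ((D (autK (x 2))).v 2) = 0
  rw [autK_2, D_x2]
  simp [coeff_one]

theorem fm_K : fm autK = 0 := by
  unfold fm B
  change coeff 1 ((D (autK (x 2))).v 1) = 0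
  rw [autK_2, D_x2]
  simp

theorem fa_M : fa autM = 0 := by
  unfold fa B
  change coeff 1 ((D (autM (x 1))).v 1) = 0
  rw [autM_1, D_x1]
  simp [coeff_one]

theorem fd_M : fd autM = 0 := by
  unfold fd B
  change coeff 1 ((D (autM (x 2))).v 2) = 0
  rw [autM_2, vD_mul, v_c01, D_x0, D_x1, D_x2, u_c01]
  simp [coeff_one]

theorem fm_M : fm autM = 1 := by
  unfold fm B
  change coeff 1 ((D (autM (x 2))).v 1) = 1
  rw [autM_2, vD_mul, v_c01, D_x0, D_x1, D_x2, u_c01]
  simp [coeff_one_t, coeff_one]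

theorem fa_M' : fa autM' = 0 := by
  unfold fa B
  change coeff 1 ((D (autM' (x 1))).v 1) = 0
  rw [autM'_1, D_x1]
  simp [coeff_one]

theorem fd_M' : fd autM' = 0 := by
  unfold fd B
  change coeff 1 ((D (autM' (x 2))).v 2) = 0
  rw [autM'_2, vD_mul, v_c01, D_x0, D_x1, D_x2]
  simp [coeff_one]

theorem fm_M' : fm autM' = 1 := by
  unfold fm B
  change coeff 1 ((D (autM' (x 2))).v 1) = 1
  rw [autM'_2, vD_mul, v_c01, D_x0, D_x1, D_x2]
  simp [coeff_one_t, coeff_one]

end Pool.Agent.W407.IA
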