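import Mathlib

/-!
# Fox derivatives of words in the free group of rank three

`R = ℤ⟦X⟧`, `t = 1 + X`.  Words `w` in the free group on `x₀, x₁, x₂` are mapped to pairs
`(u(w), v(w))`, where `u(w) = t ^ (exponent sum of x₀)` and `v(w)_i` is the `i`-th Fox derivative
evaluated at `x₀ = t`, `x₁ = x₂ = 1`.
-/

namespace Pool.Agent.W407.IA

open PowerSeries

abbrev R := PowerSeries ℤ

/-- affine group -/
@[ext] structure Aff where
  u : Rˣ
  v : Fin 3 → R

namespace Aff

noncomputable instance : Mul Aff := ⟨fun a b => ⟨a.u * b.u, fun i => a.v i + a.u * b.v i⟩⟩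
noncomputable instance : One Aff := ⟨⟨1, fun _ => 0⟩⟩
noncomputable instance : Inv Aff := ⟨fun a => ⟨a.u⁻¹, fun i => -(((a.u⁻¹ : Rˣ) : R) * a.v i)⟩⟩

@[simp] theorem mul_u (a b : Aff) : (a * b).u = a.u * b.u := rfl
@[simp] theorem mul_v (a b : Aff) (i : Fin 3) : (a * b).v i = a.v i + a.u * b.v i := rfl
@[simp] theorem one_u : (1 : Aff).u = 1 := rfl
@[simp] theorem one_v (i : Fin 3) : (1 : Aff).v i = 0 := rfl
@[simp] theorem inv_u (a : Aff) : (a⁻¹).u = a.u⁻¹ := rfl
@[simp] theorem inv_v (a : Aff) (i : Fin 3) : (a⁻¹).v i = -(((a.u⁻¹ : Rˣ) : R) * a.v i) := rfl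

noncomputable instance : Group Aff :=
  Group.ofLeftAxioms
    (fun a b c => by
      ext i
      · simp [mul_assoc]
      · simp only [mul_v, mul_u, Units.val_mul]; ring_nf)
    (fun a => by ext i <;> simp)
    (fun a => by ext i <;> simp)

end Aff

/-- The unit `t = 1 + X`. -/
noncomputable def t : Rˣ :=
  (show IsUnit (1 + X : R) from isUnit_iff_constantCoeff.2 (by simp)).unit

theorem t_val : (t : R) = 1 + X := IsUnit.unit_spec _

abbrev F := FreeGroup (Fin 3)

noncomputable def gen (i : Fin 3) : Aff := ⟨if i = 0 then t else 1, Pi.single i 1⟩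

noncomputable def D : F →* Aff := FreeGroup.lift gen

theorem D_of (i : Fin 3) : D (FreeGroup.of i) = gen i := FreeGroup.lift_apply_of

theorem uD_mul (a b : F) : (D (a * b)).u = (D a).u * (D b).u := by rw [map_mul]; rfl
theorem uD_inv (a : F) : (D a⁻¹).u = ((D a).u)⁻¹ := by rw [map_inv]; rfl
theorem vD_mul (a b : F) (i : Fin 3) :
    (D (a * b)).v i = (D a).v i + (D a).u * (D b).v i := by rw [map_mul]; rfl
theorem vD_inv (a : F) (i : Fin 3) :
    (D a⁻¹).v i = -((((D a).u)⁻¹ : Rˣ) * (D a).v i) := by rw [map_inv]; rfl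

/-- the fundamental formula -/
theorem fundamental (w : F) : (D w).v 0 * X = ((D w).u : R) - 1 := by
  induction w using FreeGroup.induction_on with
  | C1 => simp
  | of i =>
    rw [D_of]
    unfold gen
    fin_cases i <;> simp [t_val]
  | inv_of i ih =>
    rw [vD_inv, uD_inv, neg_mul, mul_assoc, ih, mul_sub, Units.inv_mul]
    simp
  | mul a b ha hb =>
    rw [vD_mul, uD_mul, add_mul, ha, mul_assoc, hb]
    push_cast
    ring

theorem v0_eq_zero {w : F} (h : (D w).u = 1) : (D w).v 0 = 0 := by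
  have h1 := fundamental w
  rw [h] at h1
  simp only [Units.val_one, sub_self] at h1
  exact (mul_eq_zero.1 h1).resolve_right X_ne_zero

/-- the constant coefficient of `u` is one -/
theorem constCoeff_t : constantCoeff (t : R) = 1 := by
  rw [t_val]; simp

theorem cc_u (w : F) : constantCoeff ((D w).u : R) = 1 := by
  induction w using FreeGroup.induction_on with
  | C1 => simp
  | of i => rw [D_of]; unfold gen; split_ifs <;> simp [constCoeff_t]
  | inv_of i ih =>
    rw [uD_inv]
    have h : ((D (FreeGroup.of i)).u : R) * (((D (FreeGroup.of i)).u)⁻¹ : Rˣ) = 1 :=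
      Units.mul_inv _
    have h2 := congrArg constantCoeff h
    rw [map_mul, ih, one_mul, map_one] at h2
    exact h2
  | mul a b ha hb => rw [uD_mul]; push_cast; rw [map_mul, ha, hb, one_mul]

/-- `IA₃`: automorphisms of `F` acting trivially on the abelianization. -/
def IsIA (φ : MulAut F) : Prop := ∀ w, Abelianization.of (φ w) = Abelianization.of w

/-- the homomorphism `u` -/
noncomputable def uHom : F →* Rˣ :=
  MonoidHom.mk' (fun w => (D w).u) uD_mul

theorem u_ia {φ : MulAut F} (h : IsIA φ) (w : F) : (D (φ w)).u = (D w).u := by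
  have h1 := congrArg (Abelianization.lift uHom) (h w)
  rwa [Abelianization.lift_apply_of, Abelianization.lift_apply_of] at h1

/-- the exponent sum homomorphisms -/
noncomputable def cHom (i : Fin 3) : F →* Multiplicative ℤ :=
  MonoidHom.mk' (fun w => Multiplicative.ofAdd (constantCoeff ((D w).v i)))
    (fun a b => by
      rw [vD_mul, map_add, map_mul, cc_u, one_mul]; rfl)

theorem c_ia {φ : MulAut F} (h : IsIA φ) (w : F) (i : Fin 3) :
    constantCoeff ((D (φ w)).v i) = constantCoeff ((D w).v i) := by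
  have h1 := congrArg (Abelianization.lift (cHom i)) (h w)
  rw [Abelianization.lift_apply_of, Abelianization.lift_apply_of] at h1
  exact h1

/-- the chain rule -/
theorem chain {φ : MulAut F} (h : IsIA φ) (w : F) (j : Fin 3) :
    (D (φ w)).v j = ∑ i, (D w).v i * (D (φ (FreeGroup.of i))).v j := by
  induction w using FreeGroup.induction_on with
  | C1 => simp
  | of l =>
    have hs : ∀ x, (D (FreeGroup.of l)).v x = if x = l then 1 else 0 := by
      intro x
      rw [D_of]
      unfold gen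
      simp only [Pi.single_apply]
    simp only [hs, ite_mul, one_mul, zero_mul]
    rw [Finset.sum_ite_eq' Finset.univ l]
    simp
  | inv_of l ih =>
    rw [map_inv, vD_inv, ih, u_ia h, Finset.mul_sum, ← Finset.sum_neg_distrib]
    refine Finset.sum_congr rfl fun i _ => ?_
    rw [vD_inv]
    ring
  | mul a b ha hb =>
    rw [map_mul, vD_mul, ha, hb, u_ia h, Finset.mul_sum, ← Finset.sum_add_distrib]
    refine Finset.sum_congr rfl fun i _ => ?_
    rw [vD_mul]
    ring

/-- the matrix entry -/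
noncomputable def B (φ : MulAut F) (l j : Fin 3) : R := (D (φ (FreeGroup.of l))).v j

theorem B_zero {φ : MulAut F} (h : IsIA φ) {l : Fin 3} (hl : l ≠ 0) : B φ l 0 = 0 := by
  apply v0_eq_zero
  rw [u_ia h, D_of]
  unfold gen
  simp [hl]

theorem B_mul {φ ψ : MulAut F} (hφ : IsIA φ) (hψ : IsIA ψ) {l : Fin 3} (hl : l ≠ 0) (j : Fin 3) :
    B (φ * ψ) l j = B ψ l 1 * B φ 1 j + B ψ l 2 * B φ 2 j := by
  have h1 : B (φ * ψ) l j = (D (φ (ψ (FreeGroup.of l)))).v j := rfl
  rw [h1, chain hφ, Fin.sum_univ_three]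
  have h2 : (D (ψ (FreeGroup.of l))).v 0 = 0 := B_zero hψ hl
  rw [h2, zero_mul, zero_add]
  rfl

theorem B_cc {φ : MulAut F} (h : IsIA φ) (l j : Fin 3) :
    constantCoeff (B φ l j) = if j = l then 1 else 0 := by
  unfold B
  rw [c_ia h, D_of]
  unfold gen
  simp only [Pi.single_apply]
  split_ifs <;> simp

noncomputable def fa (φ : MulAut F) : ℤ := coeff 1 (B φ 1 1)
noncomputable def fd (φ : MulAut F) : ℤ := coeff 1 (B φ 2 2)
noncomputable def fm (φ : MulAut F) : ℤ := coeff 1 (B φ 2 1)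
noncomputable def fh (φ : MulAut F) : ℤ := coeff 2 (B φ 2 1)

theorem coeff_one_mul' (a b : R) :
    coeff 1 (a * b) = constantCoeff a * coeff 1 b + coeff 1 a * constantCoeff b := by
  rw [coeff_mul]
  rw [show Finset.HasAntidiagonal.antidiagonal (1 : ℕ) = {(0, 1), (1, 0)} from rfl]
  rw [Finset.sum_insert (by decide), Finset.sum_singleton]
  simp

theorem coeff_two_mul' (a b : R) :
    coeff 2 (a * b) = constantCoeff a * coeff 2 b + coeff 1 a * coeff 1 b
      + coeff 2 a * constantCoeff b := by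
  rw [coeff_mul]
  rw [show Finset.HasAntidiagonal.antidiagonal (2 : ℕ) = {(0, 2), (1, 1), (2, 0)} from rfl]
  rw [Finset.sum_insert (by decide), Finset.sum_insert (by decide), Finset.sum_singleton]
  simp [add_assoc]

theorem fa_mul {φ ψ : MulAut F} (hφ : IsIA φ) (hψ : IsIA ψ) : fa (φ * ψ) = fa φ + fa ψ := by
  unfold fa
  rw [B_mul hφ hψ (by decide), map_add, coeff_one_mul', coeff_one_mul', B_cc hφ, B_cc hψ,
    B_cc hψ, B_cc hφ]
  simp

theorem fd_mul {φ ψ : MulAut F} (hφ : IsIA φ) (hψ : IsIA ψ) : fd (φ * ψ) = fd φ + fd ψ := by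
  unfold fd
  rw [B_mul hφ hψ (by decide), map_add, coeff_one_mul', coeff_one_mul', B_cc hφ, B_cc hψ,
    B_cc hψ, B_cc hφ]
  simp

theorem fm_mul {φ ψ : MulAut F} (hφ : IsIA φ) (hψ : IsIA ψ) : fm (φ * ψ) = fm φ + fm ψ := by
  unfold fm
  rw [B_mul hφ hψ (by decide), map_add, coeff_one_mul', coeff_one_mul', B_cc hφ, B_cc hψ,
    B_cc hψ, B_cc hφ]
  simp [add_comm]

theorem fh_mul {φ ψ : MulAut F} (hφ : IsIA φ) (hψ : IsIA ψ) :
    fh (φ * ψ) = fh φ + fh ψ + fm ψ * fa φ + fd ψ * fm φ := by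
  unfold fh fm fa fd
  rw [B_mul hφ hψ (by decide), map_add, coeff_two_mul', coeff_two_mul', B_cc hφ, B_cc hψ,
    B_cc hψ, B_cc hφ]
  simp
  ring

end Pool.Agent.W407.IA
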